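import Pool.Agent.V11288.NO.Cnt

/-!
# Almost all curves with full rational 2-torsion
-/

set_option autoImplicit false
set_option linter.unusedSectionVars false

namespace Pool.Agent.V11288.NO

open Finset WeierstrassCurve

open Pool.Agent.TH841.SH.D

open Pool.Agent.TH841.LS (WI big_loglog)

open Pool.Agent.TH841.PT (EQ)

open Pool.Agent.TH841.NO (SQ fo)

open Pool.Agent.Y676.IS (tri tri_ne tri_cop tri_mul)

open Pool.Agent.H437R2.Man.MW (crv pt_fg)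

lemma fg_EQ {A B : ℤ} (h : A ≠ B) (hA : A ≠ 0) (hB : B ≠ 0) :
    Module.Finite ℤ (EQ A B).toAffine.Point := by
  have hW : EQ A B = crv (-((0 : ℤ) : ℚ)) (-(A : ℚ)) (-(B : ℚ)) := by
    apply WeierstrassCurve.ext
    · rfl
    · show -((A : ℚ) + B) = -((0 : ℤ) : ℚ) + -(A : ℚ) + -(B : ℚ)
      push_cast
      ring
    · rfl
    · show (A : ℚ) * B = -((0 : ℤ) : ℚ) * -(A : ℚ) + -((0 : ℤ) : ℚ) * -(B : ℚ) + -(A : ℚ) * -(B : ℚ)
      push_cast
      ring
    · show (0 : ℚ) = -((0 : ℤ) : ℚ) * -(A : ℚ) * -(B : ℚ)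
      push_cast
      ring
  have hfg : AddGroup.FG (EQ A B).toAffine.Point := by
    rw [hW]
    refine pt_fg ?_ ?_ ?_
    · intro h0
      apply hA
      have := neg_injective h0
      exact_mod_cast this.symm
    · intro h0
      apply hB
      have := neg_injective h0
      exact_mod_cast this.symm
    · intro h0
      apply h
      have := neg_injective h0
      exact_mod_cast this
  exact Module.Finite.iff_addGroup_fg.2 hfg

/-- the conclusion -/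
def Good (R : ℕ) (δ : ℝ) (X : ℕ) (p : ℤ × ℤ) : Prop :=
  p.1 ≠ 0 ∧ p.2 ≠ 0 ∧ p.1 ≠ p.2 ∧ rk (EQ p.1 p.2) ≤ R ∧
    (∀ j : ℕ, Finite (ShaTor (EQ p.1 p.2) (2 ^ j)) ∧
      Nat.card (ShaTor (EQ p.1 p.2) (2 ^ j)) ≤ 2 ^ (R * j)) ∧
    ∀ i : Fin 3, rk (WI (tri i p.1 p.2).1 (tri i p.1 p.2).2) ≤ R ∧
      ∃ k : ℕ, |(k : ℝ) - 3 / 2 * Real.log (Real.log X)| ≤ δ * Real.log (Real.log X) ∧
        Nat.card (ShaTor (WI (tri i p.1 p.2).1 (tri i p.1 p.2).2) 2) = 2 ^ k ∧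
        ∀ j : ℕ, Finite (ShaTor (WI (tri i p.1 p.2).1 (tri i p.1 p.2).2) (2 ^ j)) ∧
          Nat.card (ShaTor (WI (tri i p.1 p.2).1 (tri i p.1 p.2).2) (2 ^ j)) ≤ 2 ^ (k + R * j)

lemma bounds {R : ℕ} {A B : ℤ} (h4 : ∀ j : ℕ, Finite (ShaTor (EQ A B) (2 ^ j)))
    (h5 : ∀ j : ℕ, 1 ≤ j → (2 : ℝ) ^ rk (EQ A B) *
      (Nat.card (ShaTor (EQ A B) (2 ^ j)) : ℝ) ^ ((1 : ℝ) / j) ≤ 2 ^ R) :
    rk (EQ A B) ≤ R ∧ ∀ j : ℕ, Nat.card (ShaTor (EQ A B) (2 ^ j)) ≤ 2 ^ (R * j) := by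
  have hpos : ∀ j : ℕ, (1 : ℝ) ≤ Nat.card (ShaTor (EQ A B) (2 ^ j)) := by
    intro j
    have := h4 j
    have h0 : 0 < Nat.card (ShaTor (EQ A B) (2 ^ j)) :=
      Nat.card_pos_iff.2 ⟨⟨⟨0, smul_zero _⟩⟩, this⟩
    exact_mod_cast h0
  constructor
  · have h6 := h5 1 le_rfl
    have h7 : (2 : ℝ) ^ rk (EQ A B) ≤ 2 ^ R := by
      refine le_trans ?_ h6
      refine le_mul_of_one_le_right (by positivity) ?_
      exact Real.one_le_rpow (hpos 1) (by positivity)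
    exact (pow_le_pow_iff_right₀ (by norm_num : (1 : ℝ) < 2)).1 h7
  · intro j
    rcases Nat.eq_zero_or_pos j with h0 | h0
    · rw [h0, pow_zero, mul_zero, pow_zero]
      have hs : Subsingleton (ShaTor (EQ A B) 1) := ⟨fun x y => Subtype.ext (by
        have e1 := x.2
        have e2 := y.2
        rw [one_smul] at e1 e2
        rw [e1, e2])⟩
      exact Finite.card_le_one_iff_subsingleton.2 hs
    · have h6 := h5 j h0
      have h7 : (Nat.card (ShaTor (EQ A B) (2 ^ j)) : ℝ) ^ ((1 : ℝ) / j) ≤ 2 ^ R := by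
        refine le_trans ?_ h6
        refine le_mul_of_one_le_left (by positivity) ?_
        exact one_le_pow₀ (by norm_num)
      have h8 := pow_le_pow_left₀ (by positivity) h7 j
      have hj : (j : ℝ) ≠ 0 := by exact_mod_cast h0.ne'
      rw [← Real.rpow_natCast, ← Real.rpow_mul (Nat.cast_nonneg _), one_div_mul_cancel hj,
        Real.rpow_one, ← pow_mul] at h8
      exact_mod_cast h8

lemma Ok.bounds {R : ℕ} {δ : ℝ} {Z : ℕ} {p : ℤ × ℤ} (h : Ok R δ Z p) :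
    rk (EQ p.1 p.2) ≤ R ∧ ∀ j : ℕ, Nat.card (ShaTor (EQ p.1 p.2) (2 ^ j)) ≤ 2 ^ (R * j) :=
  Pool.Agent.V11288.NO.bounds h.2.2.2.1 h.2.2.2.2.1

/-- one curve and one isogenous curve -/
lemma single {R : ℕ} {A B : ℤ} (h : A ≠ B) (hA : A ≠ 0) (hB : B ≠ 0)
    (h4 : ∀ j : ℕ, Finite (ShaTor (EQ A B) (2 ^ j)))
    (h5 : ∀ j : ℕ, 1 ≤ j → (2 : ℝ) ^ rk (EQ A B) *
      (Nat.card (ShaTor (EQ A B) (2 ^ j)) : ℝ) ^ ((1 : ℝ) / j) ≤ 2 ^ R) {up : ℝ}
    (h6 : (fo (-(A + B)) (A * B) : ℝ) ≤ up) {k' : ℕ} {φ : (Fin k' → ZMod 2) →+ Sha (WI A B)}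
    (hφ : Function.Injective φ) :
    rk (WI A B) ≤ R ∧ ∃ k : ℕ, k' ≤ k ∧ (k : ℝ) ≤ up + R + 2 ∧
      Nat.card (ShaTor (WI A B) 2) = 2 ^ k ∧
      ∀ j : ℕ, Finite (ShaTor (WI A B) (2 ^ j)) ∧
        Nat.card (ShaTor (WI A B) (2 ^ j)) ≤ 2 ^ (k + R * j) := by
  obtain ⟨b1, b2⟩ := bounds h4 h5
  obtain ⟨f1, k, f2, f3, f4, f5⟩ := orders h hA hB h4
  refine ⟨(rank_le h hA hB (fg_EQ h hA hB)).trans b1, k, f5 k' φ hφ, ?_, f2,
    fun j => ⟨f1 j, ?_⟩⟩
  · have e2 : Nat.log 2 (Nat.card (ShaTor (EQ A B) 2)) ≤ R := by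
      have e3 := b2 1
      rw [pow_one, mul_one] at e3
      calc Nat.log 2 (Nat.card (ShaTor (EQ A B) 2)) ≤ Nat.log 2 (2 ^ R) := Nat.log_mono_right e3
        _ = R := Nat.log_pow (by norm_num) R
    have e4 : k ≤ fo (-(A + B)) (A * B) + R + 2 := by omega
    have e5 : (k : ℝ) ≤ (fo (-(A + B)) (A * B) : ℝ) + R + 2 := by exact_mod_cast e4
    linarith
  · refine (f4 j).trans ?_
    rw [pow_add]
    exact Nat.mul_le_mul_left _ (b2 j)

lemma tri_zero (A B : ℤ) : tri 0 A B = (A, B) := rfl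

lemma good_of {R : ℕ} {δ δ' : ℝ} {X Z : ℕ} {p : ℤ × ℤ}
    (h : ∀ i, Ok R δ' Z (tri i p.1 p.2))
    (h1 : (3 / 2 - δ) * Real.log (Real.log X) ≤ (3 / 2 - δ') * Real.log (Real.log Z))
    (h2 : (3 / 2 + δ') * Real.log (Real.log Z) + R + 2 ≤ (3 / 2 + δ) * Real.log (Real.log X)) :
    Good R δ X p := by
  have h0 := h 0
  rw [tri_zero] at h0
  refine ⟨h0.1, h0.2.1, h0.2.2.1, h0.bounds.1, fun j => ⟨h0.2.2.2.1 j, h0.bounds.2 j⟩,
    fun i => ?_⟩
  obtain ⟨n1, n2, n3, n4, n5, n6, k', n7, φ, n8⟩ := h i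
  obtain ⟨f1, k, f2, f3, f4, f5⟩ := single n3 n1 n2 n4 n5 n6 n8
  refine ⟨f1, k, ?_, f4, f5⟩
  have e1 : (k' : ℝ) ≤ k := by exact_mod_cast f2
  rw [abs_le]
  constructor <;> linarith

open Classical in
/-- **almost all the curves with full rational 2-torsion** -/
theorem all (δ ε : ℝ) (hδ : 0 < δ) (hε : 0 < ε) : ∃ R X0 : ℕ, ∀ X : ℕ, X0 ≤ X →
    (((Icc (-(X : ℤ)) X ×ˢ Icc (-(X : ℤ)) X).filter (fun p : ℤ × ℤ =>
      ¬ Good R δ X p)).card : ℝ) ≤ ε * X ^ 2 := by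
  obtain ⟨D0, hD0⟩ : ∃ D0 : ℕ, 24 / ε < D0 := exists_nat_gt _
  have hD1 : 1 ≤ D0 := by
    have : (0 : ℝ) < D0 := lt_trans (by positivity) hD0
    exact_mod_cast this
  have hD0' : (0 : ℝ) < D0 := by exact_mod_cast hD1
  have ha : ∀ (g : Fin D0) (i : Fin 3), ∃ R Y0 : ℕ, ∀ Y : ℕ, Y0 ≤ Y →
      (((Icc (-(Y : ℤ)) Y ×ˢ Icc (-(Y : ℤ)) Y).filter (fun t : ℤ × ℤ => IsCoprime t.1 t.2 ∧
        ¬ Ok R (δ / 2) (4 * Y + 2) (tri i (((g : ℕ) + 1 : ℤ) * t.1)
          (((g : ℕ) + 1 : ℤ) * t.2)))).card : ℝ) ≤ ε / (9 * D0) * Y ^ 2 := fun g i =>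
    almost _ (by positivity) i (δ / 2) (ε / (9 * D0)) (by positivity) (by positivity)
  choose R0 Y0 hY0 using ha
  obtain ⟨R, hR⟩ : ∃ R, R = ∑ g, ∑ i, R0 g i := ⟨_, rfl⟩
  have hRle : ∀ g i, R0 g i ≤ R := by
    intro g i
    have h1 : R0 g i ≤ ∑ i, R0 g i := single_le_sum (f := fun i => R0 g i)
      (fun _ _ => Nat.zero_le _) (mem_univ i)
    have h2 : ∑ i, R0 g i ≤ ∑ g, ∑ i, R0 g i := single_le_sum (f := fun g => ∑ i, R0 g i)
      (fun _ _ => Nat.zero_le _) (mem_univ g)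
    omega
  have hYle : ∀ g i, Y0 g i ≤ ∑ g, ∑ i, Y0 g i := by
    intro g i
    have h1 : Y0 g i ≤ ∑ i, Y0 g i := single_le_sum (f := fun i => Y0 g i)
      (fun _ _ => Nat.zero_le _) (mem_univ i)
    have h2 : ∑ i, Y0 g i ≤ ∑ g, ∑ i, Y0 g i := single_le_sum (f := fun g => ∑ i, Y0 g i)
      (fun _ _ => Nat.zero_le _) (mem_univ g)
    omega
  obtain ⟨M1, hM1⟩ := loglog_near D0 hD1
  obtain ⟨M2, hM2⟩ := big_loglog (δ / 2) (δ / 2 + R + 4) (by positivity)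
  obtain ⟨M3, hM3⟩ := exists_nat_gt (3 / ε)
  refine ⟨R, M1 + M2 + M3 + 1 + D0 * (∑ g, ∑ i, Y0 g i + 1), fun X hX => ?_⟩
  have hX1 : 1 ≤ X := by omega
  have hX1' : (1 : ℝ) ≤ X := by exact_mod_cast hX1
  -- the bad sets
  obtain ⟨S, hS⟩ : ∃ S : Fin D0 → Fin 3 → Finset (ℤ × ℤ), S = fun (g : Fin D0) (i : Fin 3) =>
    ((Icc (-((X / ((g : ℕ) + 1) : ℕ) : ℤ)) ((X / ((g : ℕ) + 1) : ℕ) : ℤ) ×ˢ
      Icc (-((X / ((g : ℕ) + 1) : ℕ) : ℤ)) ((X / ((g : ℕ) + 1) : ℕ) : ℤ)).filter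
        (fun t : ℤ × ℤ => IsCoprime t.1 t.2 ∧
        ¬ Ok (R0 g i) (δ / 2) (4 * (X / ((g : ℕ) + 1)) + 2) (tri i (((g : ℕ) + 1 : ℤ) * t.1)
          (((g : ℕ) + 1 : ℤ) * t.2)))) := ⟨_, rfl⟩
  have hYX : ∀ g : Fin D0, ∑ g, ∑ i, Y0 g i ≤ X / ((g : ℕ) + 1) := by
    intro g
    rw [Nat.le_div_iff_mul_le (by omega)]
    have h1 : (∑ g, ∑ i, Y0 g i) * ((g : ℕ) + 1) ≤ (∑ g, ∑ i, Y0 g i + 1) * D0 :=
      Nat.mul_le_mul (by omega) (by omega)
    rw [mul_comm _ D0] at h1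
    omega
  have hSc : ∀ g i, ((S g i).card : ℝ) ≤ ε / (9 * D0) * X ^ 2 := by
    intro g i
    rw [hS]
    refine (hY0 g i _ ((hYle g i).trans (hYX g))).trans ?_
    refine mul_le_mul_of_nonneg_left ?_ (by positivity)
    refine pow_le_pow_left₀ (Nat.cast_nonneg _) ?_ 2
    exact_mod_cast Nat.div_le_self _ _
  let mp : ℕ → ℤ × ℤ → ℤ × ℤ := fun g t => (((g : ℕ) + 1 : ℤ) * t.1, ((g : ℕ) + 1 : ℤ) * t.2)
  have hsub : (Icc (-(X : ℤ)) X ×ˢ Icc (-(X : ℤ)) X).filter (fun p : ℤ × ℤ =>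
      ¬ Good R δ X p) ⊆ ({(0, 0)} : Finset (ℤ × ℤ)) ∪
        ((Icc (-(X : ℤ)) X ×ˢ Icc (-(X : ℤ)) X).filter (fun t : ℤ × ℤ =>
          D0 < Int.gcd t.1 t.2) ∪
        univ.biUnion (fun g : Fin D0 => univ.biUnion (fun i : Fin 3 => (S g i).image (mp g)))) := by
    intro p hp
    rw [mem_filter] at hp
    obtain ⟨hp1, hp2⟩ := hp
    rw [mem_union, mem_union]
    by_cases hz : Int.gcd p.1 p.2 = 0
    · left
      rw [mem_singleton]
      obtain ⟨z1, z2⟩ := Int.gcd_eq_zero_iff.1 hz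
      exact Prod.ext z1 z2
    · right
      by_cases hb : D0 < Int.gcd p.1 p.2
      · left
        exact mem_filter.2 ⟨hp1, hb⟩
      · right
        obtain ⟨g, hg⟩ : ∃ g, Int.gcd p.1 p.2 = g + 1 := ⟨Int.gcd p.1 p.2 - 1, by omega⟩
        have hgD : g < D0 := by omega
        obtain ⟨G, hG⟩ : ∃ G : ℕ, G = Int.gcd p.1 p.2 := ⟨_, rfl⟩
        obtain ⟨a, ha⟩ : (G : ℤ) ∣ p.1 := by rw [hG]; exact Int.gcd_dvd_left _ _
        obtain ⟨b, hb'⟩ : (G : ℤ) ∣ p.2 := by rw [hG]; exact Int.gcd_dvd_right _ _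
        have hGg : G = g + 1 := hG.trans hg
        have hcop : IsCoprime a b := by
          rw [Int.isCoprime_iff_gcd_eq_one]
          have e1 : G * 1 = G * Int.gcd a b := by
            rw [mul_one]
            calc G = Int.gcd p.1 p.2 := hG
              _ = Int.gcd (G * a) (G * b) := by rw [ha, hb']
              _ = G * Int.gcd a b := by rw [Int.gcd_mul_left, Int.natAbs_natCast]
          exact (Nat.eq_of_mul_eq_mul_left (by omega) e1).symm
        rw [hGg] at ha hb'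
        push_cast at ha hb'
        rw [mem_product, mem_Icc, mem_Icc] at hp1
        have key : ∀ (x y : ℤ), x = ((g : ℤ) + 1) * y → -(X : ℤ) ≤ x → x ≤ X →
            y ∈ Icc (-((X / (g + 1) : ℕ) : ℤ)) ((X / (g + 1) : ℕ) : ℤ) := by
          intro x y hxy hx1 hx2
          have e1 : y.natAbs ≤ X / (g + 1) := by
            rw [Nat.le_div_iff_mul_le (by omega)]
            have e2 : (y.natAbs * (g + 1) : ℕ) = x.natAbs := by
              rw [hxy, Int.natAbs_mul, mul_comm]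
              congr 1
            rw [e2]
            omega
          rw [mem_Icc]
          omega
        by_contra hcon
        apply hp2
        have hok : ∀ i, Ok R (δ / 2) (4 * (X / (g + 1)) + 2) (tri i p.1 p.2) := by
          intro i
          by_contra hno
          apply hcon
          rw [mem_biUnion]
          refine ⟨⟨g, hgD⟩, mem_univ _, ?_⟩
          rw [mem_biUnion]
          refine ⟨i, mem_univ _, ?_⟩
          rw [mem_image]
          refine ⟨(a, b), ?_, ?_⟩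
          · rw [hS, mem_filter, mem_product]
            refine ⟨⟨key _ _ ha hp1.1.1 hp1.1.2, key _ _ hb' hp1.2.1 hp1.2.2⟩, hcop, fun hk => ?_⟩
            apply hno
            have hk' := hk.mono (hRle ⟨g, hgD⟩ i)
            dsimp only at hk'
            rwa [← ha, ← hb'] at hk'
          · simp only [mp]
            rw [← ha, ← hb']
        have hz1 : X ≤ D0 * (4 * (X / (g + 1)) + 2) := by
          have e1 : X < (g + 1) * (X / (g + 1) + 1) := by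
            have := Nat.div_add_mod X (g + 1)
            have h2 := Nat.mod_lt X (show 0 < g + 1 by omega)
            rw [mul_add, mul_one]
            omega
          have e2 : (g + 1) * (X / (g + 1) + 1) ≤ D0 * (4 * (X / (g + 1)) + 2) :=
            Nat.mul_le_mul (by omega) (by omega)
          omega
        have hz2 : 4 * (X / (g + 1)) + 2 ≤ 6 * X := by
          have := Nat.div_le_self X (g + 1)
          omega
        have hll := hM1 X _ (by omega) hz1 hz2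
        have hbl := hM2 X (by omega)
        rw [abs_le] at hll
        have hRR : (0 : ℝ) ≤ R := Nat.cast_nonneg _
        have hlX : 0 ≤ Real.log (Real.log X) := by
          by_contra hneg
          rw [not_le] at hneg
          nlinarith
        refine good_of hok ?_ ?_
        · rcases le_total (δ / 2) (3 / 2) with hd | hd
          · nlinarith
          · nlinarith
        · nlinarith
  have hc1 := (card_le_card hsub).trans ((card_union_le _ _).trans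
    (Nat.add_le_add_left (card_union_le _ _) _))
  have hc2 : ((univ.biUnion (fun g : Fin D0 => univ.biUnion (fun i : Fin 3 =>
      (S g i).image (mp g)))).card : ℝ) ≤ ε / 3 * X ^ 2 := by
    have h1 : ((univ.biUnion (fun g : Fin D0 => univ.biUnion (fun i : Fin 3 =>
        (S g i).image (mp g)))).card : ℝ) ≤ ∑ g : Fin D0, ∑ i : Fin 3, ((S g i).card : ℝ) := by
      have : (univ.biUnion (fun g : Fin D0 => univ.biUnion (fun i : Fin 3 =>
          (S g i).image (mp g)))).card ≤ ∑ g : Fin D0, ∑ i : Fin 3, (S g i).card :=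
        card_biUnion_le.trans (sum_le_sum fun g _ => card_biUnion_le.trans
          (sum_le_sum fun i _ => card_image_le))
      exact_mod_cast this
    refine h1.trans ((sum_le_sum fun g _ => sum_le_sum fun i _ => hSc g i).trans (le_of_eq ?_))
    simp only [sum_const, card_univ, Fintype.card_fin, nsmul_eq_mul]
    push_cast
    field_simp
    ring
  have hc3 := big_gcd D0 hD1 X
  have hc4 : (8 : ℝ) / D0 * X ^ 2 ≤ ε / 3 * X ^ 2 := by
    refine mul_le_mul_of_nonneg_right ?_ (by positivity)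
    rw [div_lt_iff₀ hε] at hD0
    rw [div_le_iff₀ hD0']
    nlinarith
  have hc5 : (1 : ℝ) ≤ ε / 3 * X ^ 2 := by
    have h1 : 3 / ε < X := lt_of_lt_of_le hM3 (by exact_mod_cast (by omega : M3 ≤ X))
    rw [div_lt_iff₀ hε] at h1
    nlinarith
  have hc6 : (((Icc (-(X : ℤ)) X ×ˢ Icc (-(X : ℤ)) X).filter (fun p : ℤ × ℤ =>
      ¬ Good R δ X p)).card : ℝ) ≤ 1 + ((((Icc (-(X : ℤ)) X ×ˢ Icc (-(X : ℤ)) X).filter
        (fun t : ℤ × ℤ => D0 < Int.gcd t.1 t.2)).card : ℝ) +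
        ((univ.biUnion (fun g : Fin D0 => univ.biUnion (fun i : Fin 3 =>
          (S g i).image (mp g)))).card : ℝ)) := by
    rw [card_singleton] at hc1
    exact_mod_cast hc1
  linarith

end Pool.Agent.V11288.NO
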