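import Pool.Agent.V11288.NO.One
import Pool.Agent.Y676.IS.Cnt

/-!
# The count: almost all pairs
-/

set_option autoImplicit false
set_option linter.unusedSectionVars false

namespace Pool.Agent.V11288.NO

open Finset WeierstrassCurve

open Pool.Agent.TH841.SH.D

open Pool.Agent.TH841.LS (WI big_loglog)

open Pool.Agent.TH841.PT (EQ)

open Pool.Agent.TH841.NO (SQ fo)

open Pool.Agent.Y676.IS (tri tri_ne tri_cop tri_mul)

/-- the conclusion for one pair -/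
def Ok (R : ℕ) (δ : ℝ) (Z : ℕ) (p : ℤ × ℤ) : Prop :=
  p.1 ≠ 0 ∧ p.2 ≠ 0 ∧ p.1 ≠ p.2 ∧
    (∀ j : ℕ, Finite (ShaTor (EQ p.1 p.2) (2 ^ j))) ∧
    (∀ j : ℕ, 1 ≤ j → (2 : ℝ) ^ rk (EQ p.1 p.2) *
      (Nat.card (ShaTor (EQ p.1 p.2) (2 ^ j)) : ℝ) ^ ((1 : ℝ) / j) ≤ 2 ^ R) ∧
    (fo (-(p.1 + p.2)) (p.1 * p.2) : ℝ) ≤ (3 / 2 + δ) * Real.log (Real.log Z) ∧
    ∃ k : ℕ, (3 / 2 - δ) * Real.log (Real.log Z) ≤ k ∧
      ∃ φ : (Fin k → ZMod 2) →+ Sha (WI p.1 p.2), Function.Injective φ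

lemma Ok.mono {R R' : ℕ} {δ : ℝ} {Z : ℕ} {p : ℤ × ℤ} (h : Ok R δ Z p) (hR : R ≤ R') :
    Ok R' δ Z p := by
  obtain ⟨h1, h2, h3, h4, h5, h6⟩ := h
  exact ⟨h1, h2, h3, h4, fun j hj => (h5 j hj).trans (pow_le_pow_right₀ (by norm_num) hR), h6⟩

lemma tri_abs (i : Fin 3) {Y : ℕ} {a b : ℤ} (ha : a ∈ Icc (-(Y : ℤ)) Y) (hb : b ∈ Icc (-(Y : ℤ)) Y) :
    (-(2 * (Y : ℤ)) ≤ (tri i a b).1 ∧ (tri i a b).1 ≤ 2 * Y) ∧
      (-(2 * (Y : ℤ)) ≤ (tri i a b).2 ∧ (tri i a b).2 ≤ 2 * Y) := by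
  rw [mem_Icc] at ha hb
  fin_cases i
  · change (-(2 * (Y : ℤ)) ≤ a ∧ a ≤ 2 * Y) ∧ (-(2 * (Y : ℤ)) ≤ b ∧ b ≤ 2 * Y)
    omega
  · change (-(2 * (Y : ℤ)) ≤ -a ∧ -a ≤ 2 * Y) ∧ (-(2 * (Y : ℤ)) ≤ b - a ∧ b - a ≤ 2 * Y)
    omega
  · change (-(2 * (Y : ℤ)) ≤ -b ∧ -b ≤ 2 * Y) ∧ (-(2 * (Y : ℤ)) ≤ a - b ∧ a - b ≤ 2 * Y)
    omega

lemma tri_inj (i : Fin 3) {a b a' b' : ℤ} (h : tri i a b = tri i a' b') : a = a' ∧ b = b' := by
  fin_cases i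
  · exact ⟨congrArg Prod.fst h, congrArg Prod.snd h⟩
  · have h1 : -a = -a' := congrArg Prod.fst h
    have h2 : b - a = b' - a' := congrArg Prod.snd h
    omega
  · have h1 : -b = -b' := congrArg Prod.fst h
    have h2 : a - b = a' - b' := congrArg Prod.snd h
    omega

open Classical in
/-- almost all coprime pairs, one root -/
theorem almost (D : ℤ) (hD : D ≠ 0) (i : Fin 3) (δ ε : ℝ) (hδ : 0 < δ) (hε : 0 < ε) :
    ∃ R Y0 : ℕ, ∀ Y : ℕ, Y0 ≤ Y →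
      (((Icc (-(Y : ℤ)) Y ×ˢ Icc (-(Y : ℤ)) Y).filter (fun t : ℤ × ℤ => IsCoprime t.1 t.2 ∧
        ¬ Ok R δ (4 * Y + 2) (tri i (D * t.1) (D * t.2)))).card : ℝ) ≤ ε * Y ^ 2 := by
  have havg := Pool.Agent.W307.FK.avgn_of Pool.Agent.W307.FK.expf
  obtain ⟨R1, X1, g1⟩ := Pool.Agent.TH841.LS.large6 Pool.Agent.TH841.LS.CNT2Xf.cnt2x havg D hD δ
    (ε / 72) 1 hδ (by positivity)
  obtain ⟨R2, X2, g2⟩ := Pool.Agent.TH841.NO.norder2 Pool.Agent.TH841.NO.QULf.qul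
    Pool.Agent.TH841.NO.QUMf.qum Pool.Agent.TH841.NO.LWAf.lwa Pool.Agent.TH841.NO.LWBf.lwb
    Pool.Agent.TH841.NO.LWBf.lwc Pool.Agent.TH841.NO.PRf.pra Pool.Agent.TH841.NO.PRf.prb
    Pool.Agent.TH841.NO.LIN2f.lin2 Pool.Agent.TH841.LS.CNT2Xf.cnt2x
    Pool.Agent.TH841.NO.CNTU2f.cntu2 havg D hD δ (ε / 72) 1 hδ (by positivity)
  refine ⟨R1 + 1, X1 + X2 + 1, fun Y hY => ?_⟩
  obtain ⟨N, hNd⟩ : ∃ N : ℤ, N = -(2 * (Y : ℤ) + 1) := ⟨_, rfl⟩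
  obtain ⟨Z, hZd⟩ : ∃ Z : ℕ, Z = 4 * Y + 2 := ⟨_, rfl⟩
  have hN : N.natAbs ≤ Z ^ 1 := by
    rw [pow_one]
    omega
  have b1 := g1 N N Z (by omega) hN hN
  have b2 := g2 N N Z (by omega) hN hN
  rw [← hZd]
  set S1 := (Icc 1 Z ×ˢ Icc 1 Z).filter (fun t : ℕ × ℕ =>
        IsCoprime (N + (t.1 : ℤ)) (N + (t.2 : ℤ)) ∧
        ¬ ∀ A B : ℤ, A = D * (N + (t.1 : ℤ)) → B = D * (N + (t.2 : ℤ)) →
        A ≠ 0 ∧ B ≠ 0 ∧ A ≠ B ∧
        (∀ j : ℕ, Finite (ShaTor (EQ A B) (2 ^ j))) ∧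
        (∀ j : ℕ, 1 ≤ j → (2 : ℝ) ^ rk (EQ A B) *
          (Nat.card (ShaTor (EQ A B) (2 ^ j)) : ℝ) ^ ((1 : ℝ) / j) ≤ 2 ^ (R1 + 1)) ∧
        ∃ k : ℕ, (3 / 2 - δ) * Real.log (Real.log Z) ≤ k ∧
        ∃ φ : (Fin k → ZMod 2) →+ Sha (WI A B), Function.Injective φ) with hS1
  set S2 := (Icc 1 Z ×ˢ Icc 1 Z).filter (fun t : ℕ × ℕ =>
        IsCoprime (N + (t.1 : ℤ)) (N + (t.2 : ℤ)) ∧
        ¬ ∀ A B : ℤ, A = D * (N + (t.1 : ℤ)) → B = D * (N + (t.2 : ℤ)) →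
        A ≠ 0 ∧ B ≠ 0 ∧ A ≠ B ∧
        (3 / 2 - δ) * Real.log (Real.log Z) ≤ fo (-(A + B)) (A * B) ∧
        (fo (-(A + B)) (A * B) : ℝ) ≤ (3 / 2 + δ) * Real.log (Real.log Z) ∧
        fo (2 * (A + B)) ((A - B) ^ 2) ≤ R2 ∧ rk (EQ A B) ≤ R2) with hS2
  set S := (Icc (-(Y : ℤ)) Y ×ˢ Icc (-(Y : ℤ)) Y).filter (fun t : ℤ × ℤ => IsCoprime t.1 t.2 ∧
        ¬ Ok (R1 + 1) δ Z (tri i (D * t.1) (D * t.2))) with hS
  obtain ⟨bx, hbx⟩ : ∃ bx : ℤ × ℤ → ℕ × ℕ, bx = fun t : ℤ × ℤ =>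
    (((tri i t.1 t.2).1 - N).toNat, ((tri i t.1 t.2).2 - N).toNat) := ⟨_, rfl⟩
  have hbox : ∀ t ∈ S, (bx t ∈ Icc 1 Z ×ˢ Icc 1 Z) ∧ N + ((bx t).1 : ℤ) = (tri i t.1 t.2).1 ∧
      N + ((bx t).2 : ℤ) = (tri i t.1 t.2).2 := by
    intro t ht
    rw [hS, mem_filter, mem_product] at ht
    obtain ⟨⟨u1, u2⟩, u3, u4⟩ := tri_abs i ht.1.1 ht.1.2
    rw [hbx, mem_product, mem_Icc, mem_Icc]
    dsimp only
    omega
  have hsub : S.image bx ⊆ S1 ∪ S2 := by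
    intro t' ht'
    obtain ⟨t, ht, rfl⟩ := mem_image.1 ht'
    obtain ⟨hm, e1, e2⟩ := hbox t ht
    rw [hS, mem_filter] at ht
    obtain ⟨ht1, ht2, ht3⟩ := ht
    have hc := tri_cop i ht2
    by_contra hcon
    rw [mem_union, not_or, hS1, hS2, mem_filter, mem_filter, e1, e2] at hcon
    obtain ⟨c1, c2⟩ := hcon
    apply ht3
    have d1 := not_not.1 (fun h => c1 ⟨hm, hc, h⟩)
    have d2 := not_not.1 (fun h => c2 ⟨hm, hc, h⟩)
    obtain ⟨v1, v2, v3, v4, v5, k, k1, k2⟩ := d1 _ _ rfl rfl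
    obtain ⟨-, -, -, -, l2, -, -⟩ := d2 _ _ rfl rfl
    rw [tri_mul]
    exact ⟨v1, v2, v3, v4, v5, l2, k, k1, k2⟩
  have hcard : S.card ≤ S1.card + S2.card := by
    have hinj : Set.InjOn bx (S : Set (ℤ × ℤ)) := by
      intro t ht t' ht' he
      obtain ⟨-, e1, e2⟩ := hbox t ht
      obtain ⟨-, e3, e4⟩ := hbox t' ht'
      rw [he] at e1 e2
      have e5 : tri i t.1 t.2 = tri i t'.1 t'.2 :=
        Prod.ext (e1.symm.trans e3) (e2.symm.trans e4)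
      obtain ⟨e6, e7⟩ := tri_inj i e5
      exact Prod.ext e6 e7
    rw [← card_image_of_injOn hinj]
    exact (card_le_card hsub).trans (card_union_le _ _)
  have hcard' : (S.card : ℝ) ≤ S1.card + S2.card := by exact_mod_cast hcard
  have hZ6 : (Z : ℝ) ≤ 6 * Y := by
    have : Z ≤ 6 * Y := by omega
    exact_mod_cast this
  have hZ2 : (Z : ℝ) ^ 2 ≤ 36 * Y ^ 2 := by
    have := pow_le_pow_left₀ (Nat.cast_nonneg Z) hZ6 2
    nlinarith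
  have hb : ε / 72 * (Z : ℝ) ^ 2 ≤ ε / 2 * Y ^ 2 := by
    calc ε / 72 * (Z : ℝ) ^ 2 ≤ ε / 72 * (36 * Y ^ 2) :=
          mul_le_mul_of_nonneg_left hZ2 (by positivity)
      _ = _ := by ring
  linarith

/-- comparison of the iterated logarithms -/
lemma loglog_near (D : ℕ) (hD : 1 ≤ D) : ∃ M : ℕ, ∀ X Z : ℕ, M ≤ X → X ≤ D * Z → Z ≤ 6 * X →
    |Real.log (Real.log Z) - Real.log (Real.log X)| ≤ 1 := by
  refine ⟨D ^ 2 + 36, fun X Z hX h1 h2 => ?_⟩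
  have hX36 : (36 : ℝ) ≤ X := by exact_mod_cast (by omega : 36 ≤ X)
  have hX0 : (0 : ℝ) < X := by linarith
  have hZ0' : 0 < Z := by
    rcases Nat.eq_zero_or_pos Z with h | h
    · rw [h, mul_zero] at h1
      omega
    · exact h
  have hZ0 : (0 : ℝ) < Z := by exact_mod_cast hZ0'
  have hup : (Z : ℝ) ≤ X ^ 2 := by
    have h3 : (Z : ℝ) ≤ 6 * X := by exact_mod_cast h2
    nlinarith
  have hlow : (X : ℝ) ≤ Z ^ 2 := by
    have h3 : X ^ 2 ≤ X * Z ^ 2 := by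
      calc X ^ 2 ≤ (D * Z) ^ 2 := Nat.pow_le_pow_left h1 2
        _ = D ^ 2 * Z ^ 2 := by ring
        _ ≤ X * Z ^ 2 := Nat.mul_le_mul_right _ (by omega)
    have h4 : X * X ≤ X * Z ^ 2 := by rw [← sq]; exact h3
    have h5 : X ≤ Z ^ 2 := Nat.le_of_mul_le_mul_left h4 (by omega)
    exact_mod_cast h5
  have l1 : 2 < Real.log X := by
    have h4 : Real.exp 2 < X := by
      have h5 : Real.exp 2 = Real.exp 1 ^ 2 := by
        rw [← Real.exp_nat_mul]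
        norm_num
      have h6 := Real.exp_one_lt_d9
      have h7 := Real.exp_pos 1
      rw [h5]
      nlinarith
    have := Real.log_lt_log (Real.exp_pos 2) h4
    rwa [Real.log_exp] at this
  have l2 : Real.log Z ≤ 2 * Real.log X := by
    have := Real.log_le_log hZ0 hup
    rwa [Real.log_pow] at this
  have l3 : Real.log X ≤ 2 * Real.log Z := by
    have := Real.log_le_log hX0 hlow
    rwa [Real.log_pow] at this
  have hlZ : 0 < Real.log Z := by linarith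
  have hlX : 0 < Real.log X := by linarith
  have hlog2 : Real.log 2 ≤ 1 := by
    have := Real.log_two_lt_d9
    linarith
  have m1 : Real.log (Real.log Z) ≤ Real.log 2 + Real.log (Real.log X) := by
    rw [← Real.log_mul (by norm_num) hlX.ne']
    exact Real.log_le_log hlZ l2
  have m2 : Real.log (Real.log X) ≤ Real.log 2 + Real.log (Real.log Z) := by
    rw [← Real.log_mul (by norm_num) hlZ.ne']
    exact Real.log_le_log hlX l3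
  rw [abs_le]
  constructor <;> linarith

open Classical in
/-- the pairs with large greatest common divisor -/
lemma big_gcd (D0 : ℕ) (hD0 : 1 ≤ D0) (X : ℕ) :
    (((Icc (-(X : ℤ)) X ×ˢ Icc (-(X : ℤ)) X).filter (fun t : ℤ × ℤ =>
      D0 < Int.gcd t.1 t.2)).card : ℝ) ≤ 8 / D0 * X ^ 2 := by
  obtain ⟨T, hT⟩ : ∃ T : ℕ → Finset (ℤ × ℤ), T = fun g =>
    (((Icc (-((X / g : ℕ) : ℤ)) ((X / g : ℕ) : ℤ) ×ˢ
      Icc (-((X / g : ℕ) : ℤ)) ((X / g : ℕ) : ℤ)).erase (0, 0)).image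
        (fun t : ℤ × ℤ => ((g : ℤ) * t.1, (g : ℤ) * t.2))) := ⟨_, rfl⟩
  have hTc : ∀ g ∈ Ioc D0 X, ((T g).card : ℝ) ≤ 8 * X ^ 2 * ((g : ℝ) ^ 2)⁻¹ := by
    intro g hg
    rw [mem_Ioc] at hg
    have hg0 : 0 < g := by omega
    obtain ⟨q, hq⟩ : ∃ q, q = X / g := ⟨_, rfl⟩
    have hq1 : 1 ≤ q := by
      rw [hq]
      exact Nat.div_pos hg.2 hg0
    have h1 : (T g).card ≤ 8 * q ^ 2 := by
      rw [hT]
      refine card_image_le.trans ?_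
      rw [card_erase_of_mem, card_product, Int.card_Icc, ← hq]
      · have e : ((q : ℤ) + 1 - -(q : ℤ)).toNat = 2 * q + 1 := by omega
        rw [e]
        have e2 : (2 * q + 1) * (2 * q + 1) - 1 = 4 * q * q + 4 * q := by
          have : (2 * q + 1) * (2 * q + 1) = 4 * q * q + 4 * q + 1 := by ring
          rw [this]
          rfl
        rw [e2]
        nlinarith
      · rw [mem_product, mem_Icc]
        dsimp only
        omega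
    have h2 : (q : ℝ) * g ≤ X := by
      have : q * g ≤ X := by
        rw [hq]
        exact Nat.div_mul_le_self X g
      exact_mod_cast this
    have hg0' : (0 : ℝ) < g := by exact_mod_cast hg0
    have h3 : (q : ℝ) ^ 2 * (g : ℝ) ^ 2 ≤ X ^ 2 := by
      rw [← mul_pow]
      exact pow_le_pow_left₀ (by positivity) h2 2
    have h4 : ((T g).card : ℝ) ≤ 8 * (q : ℝ) ^ 2 := by exact_mod_cast h1
    refine h4.trans ?_
    rw [← div_eq_mul_inv, le_div_iff₀ (by positivity)]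
    nlinarith
  have hsub : (Icc (-(X : ℤ)) X ×ˢ Icc (-(X : ℤ)) X).filter (fun t : ℤ × ℤ =>
      D0 < Int.gcd t.1 t.2) ⊆ (Ioc D0 X).biUnion T := by
    intro t ht
    rw [mem_filter, mem_product, mem_Icc, mem_Icc] at ht
    obtain ⟨⟨⟨h1, h2⟩, h3, h4⟩, h5⟩ := ht
    obtain ⟨g, hg⟩ : ∃ g, g = Int.gcd t.1 t.2 := ⟨_, rfl⟩
    rw [← hg] at h5
    have hg0 : 0 < g := by omega
    obtain ⟨a, ha⟩ : (g : ℤ) ∣ t.1 := by rw [hg]; exact Int.gcd_dvd_left _ _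
    obtain ⟨b, hb⟩ : (g : ℤ) ∣ t.2 := by rw [hg]; exact Int.gcd_dvd_right _ _
    have hg0' : (0 : ℤ) < g := by exact_mod_cast hg0
    have key : ∀ (x y : ℤ), x = g * y → -(X : ℤ) ≤ x → x ≤ X →
        y ∈ Icc (-((X / g : ℕ) : ℤ)) ((X / g : ℕ) : ℤ) := by
      intro x y hxy hx1 hx2
      have e1 : y.natAbs ≤ X / g := by
        rw [Nat.le_div_iff_mul_le hg0]
        have e2 : (y.natAbs * g : ℕ) = x.natAbs := by
          rw [hxy, Int.natAbs_mul, Int.natAbs_natCast, mul_comm]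
        rw [e2]
        omega
      rw [mem_Icc]
      omega
    have hne : (a, b) ≠ (0, 0) := by
      intro h0
      rw [Prod.mk.injEq] at h0
      rw [ha, hb, h0.1, h0.2, mul_zero, Int.gcd_zero_left] at hg
      simp at hg
      omega
    rw [mem_biUnion]
    refine ⟨g, ?_, ?_⟩
    · rw [mem_Ioc]
      refine ⟨h5, ?_⟩
      by_contra hcon
      have hq : X / g = 0 := Nat.div_eq_of_lt (by omega)
      have k1 := key _ _ ha h1 h2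
      have k2 := key _ _ hb h3 h4
      rw [hq, mem_Icc] at k1 k2
      apply hne
      rw [Prod.mk.injEq]
      constructor
      · simpa using le_antisymm k1.2 k1.1
      · simpa using le_antisymm k2.2 k2.1
    · rw [hT, mem_image]
      refine ⟨(a, b), ?_, ?_⟩
      · rw [mem_erase, mem_product]
        exact ⟨hne, key _ _ ha h1 h2, key _ _ hb h3 h4⟩
      · dsimp only
        rw [← ha, ← hb]
  have h1 : (((Icc (-(X : ℤ)) X ×ˢ Icc (-(X : ℤ)) X).filter (fun t : ℤ × ℤ =>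
      D0 < Int.gcd t.1 t.2)).card : ℝ) ≤ ∑ g ∈ Ioc D0 X, ((T g).card : ℝ) := by
    exact_mod_cast (card_le_card hsub).trans card_biUnion_le
  refine h1.trans ((sum_le_sum hTc).trans ?_)
  rw [← mul_sum]
  have hD0' : (0 : ℝ) < D0 := by exact_mod_cast hD0
  rcases le_total D0 X with h | h
  · have h2 := sum_Ioc_inv_sq_le_sub (α := ℝ) (by omega : D0 ≠ 0) h
    have h3 : (0 : ℝ) ≤ (X : ℝ)⁻¹ := by positivity
    have h4 : ∑ i ∈ Ioc D0 X, ((i : ℝ) ^ 2)⁻¹ ≤ (D0 : ℝ)⁻¹ := by linarith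
    calc 8 * (X : ℝ) ^ 2 * ∑ i ∈ Ioc D0 X, ((i : ℝ) ^ 2)⁻¹ ≤ 8 * (X : ℝ) ^ 2 * (D0 : ℝ)⁻¹ :=
          mul_le_mul_of_nonneg_left h4 (by positivity)
      _ = _ := by rw [div_eq_mul_inv]; ring
  · rw [Ioc_eq_empty (by omega), sum_empty, mul_zero]
    positivity

end Pool.Agent.V11288.NO
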