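import Pool.Agent.Y676.IS.Fin
import Pool.Agent.Y497.IS.LCB
import Pool.Agent.Y500.IS.LQU

/-!
# The Tate-Shafarevich group of the 2-isogenous curve, when the one of `E` is finite at every level

(modified from `Pool/Agent/Y676/IS/Fin.lean` and `Tr.lean`, which treat the case `Ш(E)[2] = 0`)
-/

set_option autoImplicit false
set_option linter.unusedSectionVars false

namespace Pool.Agent.V11288.NO

open WeierstrassCurve

open Pool.Agent.TH841.SH.D

open Pool.Agent.TH841.LS (WI LocI T0 coc)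

open Pool.Agent.TH841.PT (EQ isR_EQ)

open Pool.Agent.TH841.NO (SQ fo)

open Pool.Agent.Y676.IS

section

attribute [-instance] DivisionRing.toRatAlgebra

/-- the classes in the kernel of the isogeny are the classes of the cocycles `χ_d T` -/
theorem exists_ker0 {A B : ℤ} (h : A ≠ B) (hA : A ≠ 0) (hB : B ≠ 0) :
    ∃ Ψ : Sha (WI A B) →+ Sha (EQ A B), ∀ x : Sha (WI A B), Ψ x = 0 →
      ∃ d : ℤ, Squarefree d ∧ ∃ hd : coc h d ∈ shaCoc (WI A B),
        cls (WI A B) ⟨coc h d, hd⟩ = x := by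
  obtain ⟨ψ, φ, h1, h2, h3⟩ := exists_NH h hA hB
  refine ⟨ψ.sha, fun x hz => ?_⟩
  obtain ⟨c, rfl⟩ := cls_surj x
  rw [sha_cls, cls_zero_iff] at hz
  obtain ⟨Q, hQ⟩ := hz
  obtain ⟨R, hR⟩ := div2 h hA hB Q
  have hP : ψ.f _ (φ.f _ R) = Q := by rw [h2, hR]
  obtain ⟨P, hPd⟩ : ∃ P, P = φ.f (AlgebraicClosure ℚ) R := ⟨_, rfl⟩
  rw [← hPd] at hP
  let c' : Coch (WI A B) := fun σ => c.1 σ - (act (WI A B) σ.toAlgHom P - P)
  have hd : IsCob (WI A B) (c.1 - c') := by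
    refine ⟨P, fun σ => ?_⟩
    change c.1 σ - (c.1 σ - (act (WI A B) σ.toAlgHom P - P)) = _
    abel
  have hsub : c' = c.1 - (c.1 - c') := by abel
  have hbc : c.1 - c' ∈ shaCoc (WI A B) := cob_shaCoc hd
  have hc' : c' ∈ shaCoc (WI A B) := by
    rw [hsub]
    exact sub_mem c.2 hbc
  have hv : ∀ σ, c' σ = 0 ∨ c' σ = T0 h (AlgebraicClosure ℚ) := by
    intro σ
    apply h3
    change ψ.f _ (c.1 σ - (act (WI A B) σ.toAlgHom P - P)) = 0
    have h4 : ψ.f _ (c.1 σ) = act (EQ A B) σ.toAlgHom Q - Q := hQ σ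
    rw [map_sub, map_sub, ← ψ.nat, hP, h4, sub_self]
  obtain ⟨d, hsq, hcd⟩ := coc_of h hc'.1 hv
  rw [hcd] at hc'
  refine ⟨d, hsq, hc', ?_⟩
  apply cls_eq
  have e1 : coc h d - c.1 = -(c.1 - c') := by
    rw [← hcd]
    abel
  rw [show ((⟨coc h d, hc'⟩ : shaCoc (WI A B)) : Coch (WI A B)) = coc h d from rfl, e1]
  exact cob_neg hd

end

/-- the classes in the kernel of the isogeny are in the set `SQ` -/
theorem exists_ker {A B : ℤ} (h : A ≠ B) (hA : A ≠ 0) (hB : B ≠ 0) :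
    ∃ Ψ : Sha (WI A B) →+ Sha (EQ A B), ∀ x : Sha (WI A B), Ψ x = 0 →
      ∃ d ∈ SQ (-(A + B)) (A * B), ∃ hd : coc h d ∈ shaCoc (WI A B),
        cls (WI A B) ⟨coc h d, hd⟩ = x := by
  obtain ⟨Ψ, hΨ⟩ := exists_ker0 h hA hB
  refine ⟨Ψ, fun x hz => ?_⟩
  obtain ⟨d, hsq, hd, he⟩ := hΨ x hz
  exact ⟨d, Pool.Agent.Y500.IS.lqu A B d hA hB h hsq
    (Pool.Agent.Y497.IS.lcb A B h d hA hB hsq.ne_zero ℝ hd.2.2)
    (fun p _ => Pool.Agent.Y497.IS.lcb A B h d hA hB hsq.ne_zero ℚ_[p] (hd.2.1 p)), hd, he⟩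

lemma cls_coc_two {A B : ℤ} (h : A ≠ B) (d : ℤ) (hd : coc h d ∈ shaCoc (WI A B)) :
    cls (WI A B) ⟨coc h d, hd⟩ + cls (WI A B) ⟨coc h d, hd⟩ = 0 := by
  rw [← cls_add]
  have h1 : (⟨coc h d, hd⟩ + ⟨coc h d, hd⟩ : shaCoc (WI A B)) = 0 :=
    Subtype.ext (Pool.Agent.TH841.LS.COCf.coc_two h d)
  rw [h1]
  rfl

/-- the orders of the torsion subgroups of `Ш(E')` -/
theorem orders {A B : ℤ} (h : A ≠ B) (hA : A ≠ 0) (hB : B ≠ 0)
    (hfin : ∀ j : ℕ, Finite (ShaTor (EQ A B) (2 ^ j))) :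
    (∀ j : ℕ, Finite (ShaTor (WI A B) (2 ^ j))) ∧
    ∃ k : ℕ, Nat.card (ShaTor (WI A B) 2) = 2 ^ k ∧
      k ≤ fo (-(A + B)) (A * B) + 1 + Nat.log 2 (Nat.card (ShaTor (EQ A B) 2)) + 1 ∧
      (∀ j : ℕ, Nat.card (ShaTor (WI A B) (2 ^ j)) ≤ 2 ^ k * Nat.card (ShaTor (EQ A B) (2 ^ j))) ∧
      ∀ (k' : ℕ) (φ : (Fin k' → ZMod 2) →+ Sha (WI A B)), Function.Injective φ → k' ≤ k := by
  classical
  have hb : A * B ≠ 0 := mul_ne_zero hA hB
  have hSQ := Pool.Agent.Y500.IS.sqf (-(A + B)) (A * B) hb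
  obtain ⟨Ψ, hΨ⟩ := exists_ker h hA hB
  -- the kernel
  obtain ⟨K, hK⟩ : ∃ K : Set (Sha (WI A B)), K = {x | Ψ x = 0} := ⟨_, rfl⟩
  let F : SQ (-(A + B)) (A * B) → Sha (WI A B) := fun d =>
    if hd : coc h d.1 ∈ shaCoc (WI A B) then cls (WI A B) ⟨coc h d.1, hd⟩ else 0
  have hsub : K ⊆ Set.range F := by
    intro x hx
    rw [hK] at hx
    obtain ⟨d, hd, hd', rfl⟩ := hΨ x hx
    refine ⟨⟨d, hd⟩, ?_⟩
    simp only [F]
    rw [dif_pos hd']
  have hfS : Finite (SQ (-(A + B)) (A * B)) := hSQ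
  have hKfin : K.Finite := (Set.finite_range F).subset hsub
  have hKf : Finite K := hKfin
  have hKcard : Nat.card K ≤ (SQ (-(A + B)) (A * B)).ncard := by
    have h1 : K.ncard ≤ (Set.range F).ncard := Set.ncard_le_ncard hsub (Set.finite_range F)
    have h2 : (Set.range F).ncard ≤ (SQ (-(A + B)) (A * B)).ncard := by
      rw [← Nat.card_coe_set_eq, ← Nat.card_coe_set_eq]
      exact Finite.card_range_le F
    exact h1.trans h2
  have hKtwo : ∀ x ∈ K, x + x = 0 := by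
    intro x hx
    rw [hK] at hx
    obtain ⟨d, hd, hd', rfl⟩ := hΨ x hx
    exact cls_coc_two h d hd'
  -- a section
  obtain ⟨s, hs⟩ : ∃ s : Sha (EQ A B) → Sha (WI A B), ∀ x, Ψ (s (Ψ x)) = Ψ x :=
    ⟨Function.invFun Ψ, fun x => Function.invFun_eq ⟨x, rfl⟩⟩
  have hmem : ∀ x, x - s (Ψ x) ∈ K := by
    intro x
    rw [hK]
    change Ψ (x - s (Ψ x)) = 0
    rw [map_sub, hs, sub_self]
  let g : ∀ n : ℕ, ShaTor (WI A B) n → ShaTor (EQ A B) n × K := fun n x =>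
    (⟨Ψ x.1, by rw [← map_nsmul, x.2, map_zero]⟩, ⟨x.1 - s (Ψ x.1), hmem _⟩)
  have hg : ∀ n, Function.Injective (g n) := by
    intro n x y hxy
    have e1 : Ψ x.1 = Ψ y.1 := congrArg (fun z => (z.1 : ShaTor (EQ A B) n).1) hxy
    have e2 : x.1 - s (Ψ x.1) = y.1 - s (Ψ y.1) := congrArg (fun z => (z.2 : K).1) hxy
    rw [e1] at e2
    exact Subtype.ext (sub_left_injective e2)
  have hfinW : ∀ j : ℕ, Finite (ShaTor (WI A B) (2 ^ j)) := by
    intro j
    have := hfin j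
    exact Finite.of_injective (g (2 ^ j)) (hg _)
  have hcardW : ∀ j : ℕ, Nat.card (ShaTor (WI A B) (2 ^ j)) ≤
      Nat.card K * Nat.card (ShaTor (EQ A B) (2 ^ j)) := by
    intro j
    have := hfin j
    have h1 := Nat.card_le_card_of_injective (g (2 ^ j)) (hg _)
    rw [Nat.card_prod, mul_comm] at h1
    exact h1
  refine ⟨hfinW, ?_⟩
  -- the 2-torsion
  let V : AddSubgroup (Sha (WI A B)) :=
    { carrier := {x | 2 • x = 0}
      zero_mem' := smul_zero 2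
      add_mem' := by
        intro x y hx hy
        change 2 • (x + y) = 0
        have hx' : 2 • x = 0 := hx
        have hy' : 2 • y = 0 := hy
        rw [smul_add, hx', hy', add_zero]
      neg_mem' := by
        intro x hx
        change 2 • (-x) = 0
        have hx' : 2 • x = 0 := hx
        rw [smul_neg, hx', neg_zero] }
  have hVe : Nat.card V = Nat.card (ShaTor (WI A B) 2) := rfl
  have hfin2 : Finite (ShaTor (WI A B) 2) := by
    have := hfinW 1
    rwa [pow_one] at this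
  have hVf : Finite V := hfin2
  have hmod : ∀ x : V, 2 • x = 0 := fun x => Subtype.ext x.2
  letI : Module (ZMod 2) V := AddCommGroup.zmodModule hmod
  have : Module.Finite (ZMod 2) V := Module.Finite.of_finite
  have hVc : Nat.card V = 2 ^ Module.finrank (ZMod 2) V := by
    rw [Module.natCard_eq_pow_finrank (K := ZMod 2), Nat.card_zmod]
  have hKV : Nat.card K ≤ Nat.card V := by
    refine Nat.card_mono ?_ ?_
    · exact hVf
    · intro x hx
      change 2 • x = 0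
      rw [two_nsmul]
      exact hKtwo x hx
  refine ⟨Module.finrank (ZMod 2) V, by rw [← hVe, hVc], ?_, fun j => ?_, fun k' φ hφ => ?_⟩
  · have h1 : 2 ^ Module.finrank (ZMod 2) V ≤
        (SQ (-(A + B)) (A * B)).ncard * Nat.card (ShaTor (EQ A B) 2) := by
      rw [← hVc, hVe]
      have h2 := hcardW 1
      rw [pow_one] at h2
      exact h2.trans (Nat.mul_le_mul_right _ hKcard)
    have h3 : (SQ (-(A + B)) (A * B)).ncard < 2 ^ (fo (-(A + B)) (A * B) + 1) :=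
      Nat.lt_pow_succ_log_self (by norm_num) _
    have h4 : Nat.card (ShaTor (EQ A B) 2) <
        2 ^ (Nat.log 2 (Nat.card (ShaTor (EQ A B) 2)) + 1) :=
      Nat.lt_pow_succ_log_self (by norm_num) _
    have h5 : 2 ^ Module.finrank (ZMod 2) V ≤ 2 ^ (fo (-(A + B)) (A * B) + 1 +
        (Nat.log 2 (Nat.card (ShaTor (EQ A B) 2)) + 1)) := by
      rw [pow_add]
      exact h1.trans (Nat.mul_le_mul h3.le h4.le)
    exact (Nat.pow_le_pow_iff_right (by norm_num : 1 < 2)).1 h5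
  · rw [← hVc]
    exact (hcardW j).trans (Nat.mul_le_mul_right _ hKV)
  · have hmap : ∀ y, φ y ∈ V := by
      intro y
      change 2 • φ y = 0
      rw [← map_nsmul]
      have : 2 • y = 0 := by
        funext i
        rw [Pi.smul_apply, Pi.zero_apply, two_nsmul]
        exact CharTwo.add_self_eq_zero _
      rw [this, map_zero]
    have h1 : Nat.card (Fin k' → ZMod 2) ≤ Nat.card V :=
      Nat.card_le_card_of_injective (fun y => (⟨φ y, hmap y⟩ : V))
        (fun y z hyz => hφ (congrArg Subtype.val hyz))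
    rw [hVc] at h1
    have h2 : Nat.card (Fin k' → ZMod 2) = 2 ^ k' := by
      simp
    rw [h2] at h1
    exact (Nat.pow_le_pow_iff_right (by norm_num : 1 < 2)).1 h1

lemma fr_le {M N : Type} [AddCommGroup M] [AddCommGroup N] [Module.Finite ℤ N] (f : M →+ N)
    (h : ∀ x, f x = 0 → (2 : ℤ) • x = 0) : Module.finrank ℤ M ≤ Module.finrank ℤ N := by
  obtain ⟨s, hs, hli⟩ := exists_finset_linearIndependent_of_le_finrank
    (R := ℤ) (M := M) le_rfl
  have hli' : LinearIndependent ℤ (fun x : s => f x.1) := by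
    rw [linearIndependent_iff'] at hli ⊢
    intro t c hc i hi
    have e3 : f (∑ j ∈ t, c j • j.1) = 0 := by
      rw [map_sum, ← hc]
      exact Finset.sum_congr rfl fun j _ => map_zsmul f _ _
    have e4 := h _ e3
    rw [Finset.smul_sum] at e4
    have e5 := hli t (fun j => 2 * c j) (by
      rw [← e4]
      exact Finset.sum_congr rfl fun j _ => (smul_smul _ _ _).symm) i hi
    have e6 : 2 * c i = 0 := e5
    omega
  have h4 := hli'.fintype_card_le_finrank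
  rw [Fintype.card_coe, hs] at h4
  exact h4

lemma exists_j (W : WeierstrassCurve ℚ) : ∃ j : W.toAffine.Point →+ Pt W ℚ,
    Function.Injective j := by
  suffices H : ∀ W' : WeierstrassCurve ℚ, W' = W.baseChange ℚ →
      ∃ j : W'.toAffine.Point →+ Pt W ℚ, Function.Injective j by
    apply H W
    apply WeierstrassCurve.ext <;> simp [WeierstrassCurve.baseChange]
  rintro W' rfl
  exact ⟨@Affine.Point.map ℚ ℚ ℚ ℚ _ _ _ _ W _ (Classical.decEq ℚ) _ _ _ _ _ _ _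
    (Algebra.ofId ℚ ℚ), @Affine.Point.map_injective ℚ ℚ ℚ ℚ _ _ _ _ W _ (Classical.decEq ℚ)
    _ _ _ _ _ _ _ (Algebra.ofId ℚ ℚ)⟩

lemma exists_k (W : WeierstrassCurve ℚ) : ∃ j : Pt W ℚ →+ W.toAffine.Point,
    Function.Injective j := by
  suffices H : ∀ W' : WeierstrassCurve ℚ, W' = W.baseChange ℚ →
      ∃ j : Pt W ℚ →+ W'.toAffine.Point, Function.Injective j by
    apply H W
    apply WeierstrassCurve.ext <;> simp [WeierstrassCurve.baseChange]
  rintro W' rfl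
  exact ⟨@Affine.Point.map ℚ ℚ ℚ ℚ _ _ _ _ W (Classical.decEq ℚ) _ _ _ _ _ _ _ _
    (Algebra.ofId ℚ ℚ), @Affine.Point.map_injective ℚ ℚ ℚ ℚ _ _ _ _ W (Classical.decEq ℚ) _
    _ _ _ _ _ _ _ (Algebra.ofId ℚ ℚ)⟩

/-- the rank does not grow -/
theorem rank_le {A B : ℤ} (h : A ≠ B) (hA : A ≠ 0) (hB : B ≠ 0)
    (hfg : Module.Finite ℤ (EQ A B).toAffine.Point) : rk (WI A B) ≤ rk (EQ A B) := by
  obtain ⟨ψ, φ, h1, h2, h3⟩ := exists_NH h hA hB
  obtain ⟨j, hj⟩ := exists_j (WI A B)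
  obtain ⟨k, hk⟩ := exists_k (EQ A B)
  refine fr_le ((k.comp (ψ.f ℚ)).comp j) fun x hx => ?_
  have e1 : k (ψ.f ℚ (j x)) = 0 := hx
  have e2 : ψ.f ℚ (j x) = 0 := hk (e1.trans (map_zero k).symm)
  have e3 : j x + j x = 0 := by
    rw [← h1, e2, map_zero]
  apply hj
  rw [map_zsmul, map_zero, two_zsmul]
  exact e3

end Pool.Agent.V11288.NO
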