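import Pool.Agent.V11288.NO.All
import Pool.Agent.TH841.LS.Main5

/-!
# Almost all members of a pencil
-/

set_option autoImplicit false
set_option linter.unusedSectionVars false

namespace Pool.Agent.V11288.NO

open Finset Polynomial

open Pool.Agent.TH841.SH.D

open Pool.Agent.TH841.LS (WI big_loglog DG sc)

open Pool.Agent.TH841.PT (EQ Irr)

open Pool.Agent.TH841.NO (SQ fo)

open Pool.Agent.TH841.TR (UP allf Bal)

/-- the conclusion for one pair, with the constant `κ` -/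
def GoodP (R : ℕ) (κ δ l : ℝ) (A B : ℤ) : Prop :=
  A ≠ 0 ∧ B ≠ 0 ∧ A ≠ B ∧ rk (EQ A B) ≤ R ∧
    (∀ j : ℕ, Finite (ShaTor (EQ A B) (2 ^ j)) ∧
      Nat.card (ShaTor (EQ A B) (2 ^ j)) ≤ 2 ^ (R * j)) ∧
    rk (WI A B) ≤ R ∧
      ∃ k : ℕ, |(k : ℝ) - κ * l| ≤ δ * l ∧ Nat.card (ShaTor (WI A B) 2) = 2 ^ k ∧
        ∀ j : ℕ, Finite (ShaTor (WI A B) (2 ^ j)) ∧
          Nat.card (ShaTor (WI A B) (2 ^ j)) ≤ 2 ^ (k + R * j)

open Classical in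
/-- **almost all the members of a pencil** -/
theorem pen {n : Fin 3 → ℕ} {m : ℕ} (a : Fin 3 → ℤ)
    (f : ∀ k : Fin 3, Fin (n k) → ℤ[X]) (c : ℤ) (g : Fin m → ℤ[X])
    (ha : ∀ k, a k ≠ 0) (hc : c ≠ 0) (hf : Irr (allf g f))
    (hU : UP a f 0 - UP a f 1 = UP a f 2)
    (hn : (∀ k, 2 * n k < n 0 + n 1 + n 2) ∨ Bal (DG c g) a f) (δ ε : ℝ) (L : ℕ)
    (hδ : 0 < δ) (hε : 0 < ε) :
    ∃ R M0 : ℕ, ∀ (N : ℤ) (M : ℕ), M0 ≤ M → |N| ≤ (M : ℤ) ^ L →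
      (((Ioc N (N + (M : ℤ))).filter (fun t => ¬ GoodP R (sc a f c g) δ (Real.log (Real.log M))
        ((DG c g * UP a f 0).eval t) ((DG c g * UP a f 1).eval t))).card : ℝ) ≤ ε * M := by
  obtain ⟨R1, M1, g1⟩ := Pool.Agent.TH841.LS.large5
    (Pool.Agent.TH841.LS.CNTXf.cntx_of Pool.Agent.TH841.LS.TKXf.tkx)
    Pool.Agent.TH841.PM.tavz Pool.Agent.TH841.TR.tav3x a f c g 1 ha hc one_ne_zero hf hU hn
    (δ / 2) (ε / 2) L (by positivity) (by positivity)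
  obtain ⟨R2, M2, g2⟩ := Pool.Agent.TH841.NO.norder Pool.Agent.TH841.NO.QULf.qul
    Pool.Agent.TH841.NO.QUMf.qum Pool.Agent.TH841.NO.LWAf.lwa Pool.Agent.TH841.NO.LWBf.lwb
    Pool.Agent.TH841.NO.LWBf.lwc Pool.Agent.TH841.NO.PRf.pra Pool.Agent.TH841.NO.PRf.prb
    Pool.Agent.TH841.NO.LIN2f.lin2
    (Pool.Agent.TH841.LS.CNTXf.cntx_of Pool.Agent.TH841.LS.TKXf.tkx)
    (Pool.Agent.TH841.NO.CNTUf.cntu_of Pool.Agent.TH841.LS.TKXf.tkx Pool.Agent.TH841.NO.TKLf.tkl)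
    Pool.Agent.TH841.PM.tavz Pool.Agent.TH841.TR.tav3x a f c g ha hc hf hU hn (δ / 2) (ε / 2) L
    (by positivity) (by positivity)
  obtain ⟨M3, hM3⟩ := big_loglog (δ / 2) ((R1 : ℝ) + 3) (by positivity)
  refine ⟨R1 + 1, M1 + M2 + M3, fun N M hM hN => ?_⟩
  have b1 := g1 N M (by omega) hN
  have b2 := g2 N M (by omega) hN
  have b3 := hM3 M (by omega)
  set S1 := (Ioc N (N + (M : ℤ))).filter (fun t => ¬ ∀ A B : ℤ,
        A = (DG c g * 1 ^ 2 * UP a f 0).eval t →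
        B = (DG c g * 1 ^ 2 * UP a f 1).eval t → A ≠ 0 ∧ B ≠ 0 ∧ A ≠ B ∧
        (∀ j : ℕ, Finite (ShaTor (EQ A B) (2 ^ j))) ∧
        (∀ j : ℕ, 1 ≤ j → (2 : ℝ) ^ rk (EQ A B) *
          (Nat.card (ShaTor (EQ A B) (2 ^ j)) : ℝ) ^ ((1 : ℝ) / j) ≤ 2 ^ (R1 + 1)) ∧
        ∃ k : ℕ, (sc a f c g - δ / 2) * Real.log (Real.log M) ≤ k ∧
        ∃ φ : (Fin k → ZMod 2) →+ Sha (WI A B), Function.Injective φ) with hS1
  set S2 := (Ioc N (N + (M : ℤ))).filter (fun t => ¬ ∀ A B : ℤ,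
        A = (DG c g * UP a f 0).eval t →
        B = (DG c g * UP a f 1).eval t → A ≠ 0 ∧ B ≠ 0 ∧ A ≠ B ∧
        (sc a f c g - δ / 2) * Real.log (Real.log M) ≤ fo (-(A + B)) (A * B) ∧
        (fo (-(A + B)) (A * B) : ℝ) ≤ (sc a f c g + δ / 2) * Real.log (Real.log M) ∧
        fo (2 * (A + B)) ((A - B) ^ 2) ≤ R2 ∧ rk (EQ A B) ≤ R2) with hS2
  have hsub : (Ioc N (N + (M : ℤ))).filter (fun t => ¬ GoodP (R1 + 1) (sc a f c g) δ
      (Real.log (Real.log M)) ((DG c g * UP a f 0).eval t) ((DG c g * UP a f 1).eval t)) ⊆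
        S1 ∪ S2 := by
    intro t ht
    rw [mem_filter] at ht
    obtain ⟨ht1, ht2⟩ := ht
    by_contra hcon
    rw [mem_union, not_or, hS1, hS2, mem_filter, mem_filter] at hcon
    obtain ⟨c1, c2⟩ := hcon
    apply ht2
    have d1 := not_not.1 (fun h => c1 ⟨ht1, h⟩)
    have d2 := not_not.1 (fun h => c2 ⟨ht1, h⟩)
    rw [one_pow, mul_one] at d1
    obtain ⟨v1, v2, v3, v4, v5, k', k1, φ, hφ⟩ := d1 _ _ rfl rfl
    obtain ⟨-, -, -, -, l2, -, -⟩ := d2 _ _ rfl rfl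
    obtain ⟨b1', b2'⟩ := bounds v4 v5
    obtain ⟨f1, k, f2, f3, f4, f5⟩ := single v3 v1 v2 v4 v5 l2 hφ
    refine ⟨v1, v2, v3, b1', fun j => ⟨v4 j, b2' j⟩, f1, k, ?_, f4, f5⟩
    have e1 : (k' : ℝ) ≤ k := by exact_mod_cast f2
    push_cast at f3
    have hR1 : (0 : ℝ) ≤ R1 := Nat.cast_nonneg _
    rw [abs_le]
    constructor <;> linarith
  have hcard : (((Ioc N (N + (M : ℤ))).filter (fun t => ¬ GoodP (R1 + 1) (sc a f c g) δ
      (Real.log (Real.log M)) ((DG c g * UP a f 0).eval t)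
        ((DG c g * UP a f 1).eval t))).card : ℝ) ≤ S1.card + S2.card := by
    exact_mod_cast (card_le_card hsub).trans (card_union_le _ _)
  linarith

end Pool.Agent.V11288.NO
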